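import Pool.Agent.Helper36.JJ.Defs

/-!
# JJ-18: plane geometry over a subfield
-/

namespace Pool.Agent.Helper36.JJ

open Finset Module
open Pool.Agent.Helper36.Pin

variable {V : Type} [Fintype V] [DecidableEq V]

theorem plane_key (K : Subfield ℝ) (s : Fin 2 → ℝ)
    (hK : ∀ c : Fin 6 → ℝ, (∀ i, c i ∈ K) →
        c 0 + c 1 * s 0 + c 2 * s 1 + c 3 * s 0 ^ 2 + c 4 * (s 0 * s 1) +
          c 5 * s 1 ^ 2 = 0 → ∀ i, c i = 0)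
    (N : Finset V) (h3 : 3 ≤ N.card) (a b : V → Fin 2 → ℝ)
    (ha : ∀ x ∈ N, ∀ i, a x i ∈ K) (hb : ∀ x ∈ N, ∀ i, b x i ∈ K)
    (hnc : ∀ x ∈ N, ∀ y ∈ N, ∀ z ∈ N, x ≠ y → x ≠ z → y ≠ z →
      (a y 0 - a x 0) * (a z 1 - a x 1) - (a y 1 - a x 1) * (a z 0 - a x 0) ≠ 0)
    (r : Fin 2 → ℝ) (hr : ∀ x ∈ N, dsq r (b x) = dsq s (a x)) :
    ∀ x ∈ N, ∀ y ∈ N, dsq (b x) (b y) = dsq (a x) (a y) := by
  classical
  -- a convenient form of the hypothesis on `K`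
  have key : ∀ c0 c1 c2 c3 c4 c5 : ℝ, c0 ∈ K → c1 ∈ K → c2 ∈ K → c3 ∈ K → c4 ∈ K → c5 ∈ K →
      c0 + c1 * s 0 + c2 * s 1 + c3 * s 0 ^ 2 + c4 * (s 0 * s 1) + c5 * s 1 ^ 2 = 0 →
      c0 = 0 ∧ c1 = 0 ∧ c2 = 0 ∧ c3 = 0 ∧ c4 = 0 ∧ c5 = 0 := by
    intro c0 c1 c2 c3 c4 c5 h0 h1 h2 h3 h4 h5 h
    have := hK ![c0, c1, c2, c3, c4, c5] (by
      intro i
      fin_cases i
      · exact h0
      · exact h1
      · exact h2
      · exact h3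
      · exact h4
      · exact h5) (by simpa using h)
    exact ⟨this 0, this 1, this 2, this 3, this 4, this 5⟩
  obtain ⟨x, hx, y, hy, z, hz, hxy, hxz, hyz⟩ :
      ∃ x ∈ N, ∃ y ∈ N, ∃ z ∈ N, x ≠ y ∧ x ≠ z ∧ y ≠ z := by
    obtain ⟨x, y, z, hx, hy, hz, h⟩ := Finset.two_lt_card_iff.1 (show 2 < N.card by omega)
    exact ⟨x, hx, y, hy, z, hz, h⟩
  have hn := hnc x hx y hy z hz hxy hxz hyz
  have ex := hr x hx
  have ey := hr y hy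
  have ez := hr z hz
  simp only [dsq] at ex ey ez
  have ax0 := ha x hx 0
  have ax1 := ha x hx 1
  have ay0 := ha y hy 0
  have ay1 := ha y hy 1
  have az0 := ha z hz 0
  have az1 := ha z hz 1
  have bx0 := hb x hx 0
  have bx1 := hb x hx 1
  have by0 := hb y hy 0
  have by1 := hb y hy 1
  have bz0 := hb z hz 0
  have bz1 := hb z hz 1
  -- abbreviations
  obtain ⟨u0, hu0⟩ : ∃ t, t = b y 0 - b x 0 := ⟨_, rfl⟩
  obtain ⟨u1, hu1⟩ : ∃ t, t = b y 1 - b x 1 := ⟨_, rfl⟩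
  obtain ⟨w0, hw0⟩ : ∃ t, t = b z 0 - b x 0 := ⟨_, rfl⟩
  obtain ⟨w1, hw1⟩ : ∃ t, t = b z 1 - b x 1 := ⟨_, rfl⟩
  obtain ⟨p0, hp0⟩ : ∃ t, t = a y 0 - a x 0 := ⟨_, rfl⟩
  obtain ⟨p1, hp1⟩ : ∃ t, t = a y 1 - a x 1 := ⟨_, rfl⟩
  obtain ⟨q0, hq0⟩ : ∃ t, t = a z 0 - a x 0 := ⟨_, rfl⟩
  obtain ⟨q1, hq1⟩ : ∃ t, t = a z 1 - a x 1 := ⟨_, rfl⟩
  obtain ⟨cu, hcu⟩ : ∃ t, t = (b y 0 ^ 2 + b y 1 ^ 2) - (b x 0 ^ 2 + b x 1 ^ 2) -
      (a y 0 ^ 2 + a y 1 ^ 2) + (a x 0 ^ 2 + a x 1 ^ 2) := ⟨_, rfl⟩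
  obtain ⟨cw, hcw⟩ : ∃ t, t = (b z 0 ^ 2 + b z 1 ^ 2) - (b x 0 ^ 2 + b x 1 ^ 2) -
      (a z 0 ^ 2 + a z 1 ^ 2) + (a x 0 ^ 2 + a x 1 ^ 2) := ⟨_, rfl⟩
  have u0K : u0 ∈ K := hu0 ▸ K.sub_mem by0 bx0
  have u1K : u1 ∈ K := hu1 ▸ K.sub_mem by1 bx1
  have w0K : w0 ∈ K := hw0 ▸ K.sub_mem bz0 bx0
  have w1K : w1 ∈ K := hw1 ▸ K.sub_mem bz1 bx1
  have p0K : p0 ∈ K := hp0 ▸ K.sub_mem ay0 ax0
  have p1K : p1 ∈ K := hp1 ▸ K.sub_mem ay1 ax1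
  have q0K : q0 ∈ K := hq0 ▸ K.sub_mem az0 ax0
  have q1K : q1 ∈ K := hq1 ▸ K.sub_mem az1 ax1
  have sq : ∀ {t : ℝ}, t ∈ K → t ^ 2 ∈ K := fun h => pow_mem h 2
  have cuK : cu ∈ K := by
    rw [hcu]
    exact K.add_mem (K.sub_mem (K.sub_mem (K.add_mem (sq by0) (sq by1))
      (K.add_mem (sq bx0) (sq bx1))) (K.add_mem (sq ay0) (sq ay1)))
      (K.add_mem (sq ax0) (sq ax1))
  have cwK : cw ∈ K := by
    rw [hcw]
    exact K.add_mem (K.sub_mem (K.sub_mem (K.add_mem (sq bz0) (sq bz1))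
      (K.add_mem (sq bx0) (sq bx1))) (K.add_mem (sq az0) (sq az1)))
      (K.add_mem (sq ax0) (sq ax1))
  have two : (2 : ℝ) ∈ K := ofNat_mem K 2
  -- the two linear equations
  have e1 : 2 * (r 0 * u0 + r 1 * u1) = 2 * (s 0 * p0 + s 1 * p1) + cu := by
    rw [hu0, hu1, hp0, hp1, hcu]; linear_combination ex - ey
  have e2 : 2 * (r 0 * w0 + r 1 * w1) = 2 * (s 0 * q0 + s 1 * q1) + cw := by
    rw [hw0, hw1, hq0, hq1, hcw]; linear_combination ex - ez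
  have hn' : p0 * q1 - p1 * q0 ≠ 0 := by rw [hp0, hp1, hq0, hq1]; exact hn
  -- relations
  have rel : ∀ α β : ℝ, α ∈ K → β ∈ K → α * u0 + β * w0 = 0 → α * u1 + β * w1 = 0 →
      α = 0 ∧ β = 0 := by
    intro α β hα hβ h0 h1
    obtain ⟨-, k1, k2, -⟩ := key (α * cu + β * cw) (2 * (α * p0 + β * q0))
      (2 * (α * p1 + β * q1)) 0 0 0
      (K.add_mem (K.mul_mem hα cuK) (K.mul_mem hβ cwK))
      (K.mul_mem two (K.add_mem (K.mul_mem hα p0K) (K.mul_mem hβ q0K)))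
      (K.mul_mem two (K.add_mem (K.mul_mem hα p1K) (K.mul_mem hβ q1K)))
      K.zero_mem K.zero_mem K.zero_mem (by
        linear_combination (-α) * e1 + (-β) * e2 + 2 * r 0 * h0 + 2 * r 1 * h1)
    have k1' : α * p0 + β * q0 = 0 := by linarith
    have k2' : α * p1 + β * q1 = 0 := by linarith
    constructor
    · have : α * (p0 * q1 - p1 * q0) = 0 := by linear_combination q1 * k1' - q0 * k2'
      exact (mul_eq_zero.1 this).resolve_right hn'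
    · have : β * (p0 * q1 - p1 * q0) = 0 := by linear_combination p0 * k2' - p1 * k1'
      exact (mul_eq_zero.1 this).resolve_right hn'
  -- the determinant
  have hD : u0 * w1 - u1 * w0 ≠ 0 := by
    intro hD
    have r1 := rel w0 (-u0) w0K (K.neg_mem u0K) (by ring) (by linear_combination -hD)
    have r2 := rel w1 (-u1) w1K (K.neg_mem u1K) (by linear_combination hD) (by ring)
    have hu0' : u0 = 0 := by linarith [r1.2]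
    have hu1' : u1 = 0 := by linarith [r2.2]
    have r3 := rel 1 0 K.one_mem K.zero_mem (by rw [hu0', r1.1]; ring)
      (by rw [hu1', r2.1]; ring)
    exact one_ne_zero r3.1
  obtain ⟨D, hDD⟩ : ∃ t, t = u0 * w1 - u1 * w0 := ⟨_, rfl⟩
  rw [← hDD] at hD
  have DK : D ∈ K := hDD ▸ K.sub_mem (K.mul_mem u0K w1K) (K.mul_mem u1K w0K)
  have DiK : D⁻¹ ∈ K := K.inv_mem DK
  obtain ⟨A00, hA00⟩ : ∃ t, t = (w1 * p0 - u1 * q0) * D⁻¹ := ⟨_, rfl⟩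
  obtain ⟨A01, hA01⟩ : ∃ t, t = (w1 * p1 - u1 * q1) * D⁻¹ := ⟨_, rfl⟩
  obtain ⟨A10, hA10⟩ : ∃ t, t = (u0 * q0 - w0 * p0) * D⁻¹ := ⟨_, rfl⟩
  obtain ⟨A11, hA11⟩ : ∃ t, t = (u0 * q1 - w0 * p1) * D⁻¹ := ⟨_, rfl⟩
  obtain ⟨t0, ht0⟩ : ∃ t, t = (w1 * cu - u1 * cw) * (2⁻¹ * D⁻¹) := ⟨_, rfl⟩
  obtain ⟨t1, ht1⟩ : ∃ t, t = (u0 * cw - w0 * cu) * (2⁻¹ * D⁻¹) := ⟨_, rfl⟩
  have A00K : A00 ∈ K := hA00 ▸ K.mul_mem (K.sub_mem (K.mul_mem w1K p0K) (K.mul_mem u1K q0K)) DiK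
  have A01K : A01 ∈ K := hA01 ▸ K.mul_mem (K.sub_mem (K.mul_mem w1K p1K) (K.mul_mem u1K q1K)) DiK
  have A10K : A10 ∈ K := hA10 ▸ K.mul_mem (K.sub_mem (K.mul_mem u0K q0K) (K.mul_mem w0K p0K)) DiK
  have A11K : A11 ∈ K := hA11 ▸ K.mul_mem (K.sub_mem (K.mul_mem u0K q1K) (K.mul_mem w0K p1K)) DiK
  have i2 : (2⁻¹ : ℝ) ∈ K := K.inv_mem two
  have t0K : t0 ∈ K := ht0 ▸ K.mul_mem (K.sub_mem (K.mul_mem w1K cuK) (K.mul_mem u1K cwK))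
    (K.mul_mem i2 DiK)
  have t1K : t1 ∈ K := ht1 ▸ K.mul_mem (K.sub_mem (K.mul_mem u0K cwK) (K.mul_mem w0K cuK))
    (K.mul_mem i2 DiK)
  have r0e : r 0 = A00 * s 0 + A01 * s 1 + t0 := by
    rw [hA00, hA01, ht0]
    field_simp
    rw [hDD]
    linear_combination w1 * e1 - u1 * e2
  have r1e : r 1 = A10 * s 0 + A11 * s 1 + t1 := by
    rw [hA10, hA11, ht1]
    field_simp
    rw [hDD]
    linear_combination u0 * e2 - w0 * e1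
  -- the identity of quadratic polynomials
  have iden : ∀ v ∈ N, ∀ c0 c1 : ℝ,
      (A00 * c0 + A01 * c1 + t0 - b v 0) ^ 2 + (A10 * c0 + A11 * c1 + t1 - b v 1) ^ 2 =
        (c0 - a v 0) ^ 2 + (c1 - a v 1) ^ 2 := by
    intro v hv c0 c1
    have ev := hr v hv
    simp only [dsq] at ev
    rw [r0e, r1e] at ev
    have av0 := ha v hv 0
    have av1 := ha v hv 1
    have bv0 := hb v hv 0
    have bv1 := hb v hv 1
    have m0 := K.sub_mem t0K bv0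
    have m1 := K.sub_mem t1K bv1
    obtain ⟨k0, k1, k2, k3, k4, k5⟩ := key
      ((t0 - b v 0) ^ 2 + (t1 - b v 1) ^ 2 - (a v 0 ^ 2 + a v 1 ^ 2))
      (2 * (A00 * (t0 - b v 0) + A10 * (t1 - b v 1) + a v 0))
      (2 * (A01 * (t0 - b v 0) + A11 * (t1 - b v 1) + a v 1))
      (A00 ^ 2 + A10 ^ 2 - 1) (2 * (A00 * A01 + A10 * A11)) (A01 ^ 2 + A11 ^ 2 - 1)
      (K.sub_mem (K.add_mem (sq m0) (sq m1)) (K.add_mem (sq av0) (sq av1)))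
      (K.mul_mem two (K.add_mem (K.add_mem (K.mul_mem A00K m0) (K.mul_mem A10K m1)) av0))
      (K.mul_mem two (K.add_mem (K.add_mem (K.mul_mem A01K m0) (K.mul_mem A11K m1)) av1))
      (K.sub_mem (K.add_mem (sq A00K) (sq A10K)) K.one_mem)
      (K.mul_mem two (K.add_mem (K.mul_mem A00K A01K) (K.mul_mem A10K A11K)))
      (K.sub_mem (K.add_mem (sq A01K) (sq A11K)) K.one_mem)
      (by linear_combination ev)
    linear_combination k0 + c0 * k1 + c1 * k2 + c0 ^ 2 * k3 + c0 * c1 * k4 + c1 ^ 2 * k5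
  have img : ∀ v ∈ N, b v 0 = A00 * a v 0 + A01 * a v 1 + t0 ∧
      b v 1 = A10 * a v 0 + A11 * a v 1 + t1 := by
    intro v hv
    have h := iden v hv (a v 0) (a v 1)
    have hz : (a v 0 - a v 0) ^ 2 + (a v 1 - a v 1) ^ 2 = 0 := by ring
    rw [hz] at h
    have h1 : (A00 * a v 0 + A01 * a v 1 + t0 - b v 0) ^ 2 = 0 :=
      le_antisymm (by linarith [sq_nonneg (A10 * a v 0 + A11 * a v 1 + t1 - b v 1)])
        (sq_nonneg _)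
    have h2 : (A10 * a v 0 + A11 * a v 1 + t1 - b v 1) ^ 2 = 0 :=
      le_antisymm (by linarith [sq_nonneg (A00 * a v 0 + A01 * a v 1 + t0 - b v 0)])
        (sq_nonneg _)
    have h1' := pow_eq_zero_iff (two_ne_zero) |>.1 h1
    have h2' := pow_eq_zero_iff (two_ne_zero) |>.1 h2
    exact ⟨by linarith, by linarith⟩
  intro v hv v' hv'
  have h := iden v' hv' (a v 0) (a v 1)
  obtain ⟨i0, i1⟩ := img v hv
  simp only [dsq]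
  rw [i0, i1]
  exact h

end Pool.Agent.Helper36.JJ
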